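import Pool.Agent.H27.G.R_seed8.Y859.SF.Stm

/-!
# The density of the squarefree integers

(helper293, job SF-SQF of helper859.)
-/

set_option autoImplicit false

namespace Pool.Agent.Y293.SF

open Finset Filter Topology

/-- the Moebius function as a real function -/
noncomputable def mu (d : ℕ) : ℝ := ((ArithmeticFunction.moebius d : ℤ) : ℝ)

theorem abs_mu_le (d : ℕ) : |mu d| ≤ 1 := by
  have := ArithmeticFunction.abs_moebius_le_one (n := d)
  unfold mu
  exact_mod_cast this

theorem mu_zero : mu 0 = 0 := by simp [mu]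

/-- `∑_{d² ∣ n} μ(d)` is the indicator function of the squarefree integers -/
theorem indic_eq (n : ℕ) (hn : n ≠ 0) :
    (if Squarefree n then (1 : ℝ) else 0) =
      ∑ d ∈ Finset.Icc 1 n, if d ^ 2 ∣ n then mu d else 0 := by
  obtain ⟨a, b, hab, ha⟩ := Nat.sq_mul_squarefree n
  have hb0 : b ≠ 0 := by rintro rfl; apply hn; rw [← hab]; simp
  have ha0 : a ≠ 0 := by rintro rfl; apply hn; rw [← hab]; simp
  have key : ∀ d : ℕ, d ^ 2 ∣ n ↔ d ∣ b := by
    intro d
    constructor
    · intro h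
      have hd0 : d ≠ 0 := by
        rintro rfl
        rw [zero_pow two_ne_zero, zero_dvd_iff] at h
        exact hn h
      rw [← Nat.factorization_le_iff_dvd (pow_ne_zero _ hd0) hn] at h
      rw [← Nat.factorization_le_iff_dvd hd0 hb0]
      intro p
      have h1 := h p
      rw [← hab, Nat.factorization_mul (pow_ne_zero _ hb0) ha0, Nat.factorization_pow,
        Nat.factorization_pow] at h1
      have h2 := ha.natFactorization_le_one p
      simp only [Finsupp.coe_smul, Finsupp.coe_add, Pi.add_apply, Pi.smul_apply, smul_eq_mul] at h1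
      omega
    · intro h
      rw [← hab]
      exact Dvd.dvd.mul_right (pow_dvd_pow_of_dvd h 2) a
  have h1 : (∑ d ∈ Finset.Icc 1 n, if d ^ 2 ∣ n then mu d else 0) = ∑ d ∈ b.divisors, mu d := by
    rw [← Finset.sum_filter]
    apply Finset.sum_congr _ (fun _ _ => rfl)
    ext d
    simp only [Finset.mem_filter, Finset.mem_Icc, Nat.mem_divisors, key]
    constructor
    · rintro ⟨-, h⟩; exact ⟨h, hb0⟩
    · rintro ⟨h, -⟩
      refine ⟨⟨Nat.pos_of_dvd_of_pos h (Nat.pos_of_ne_zero hb0), ?_⟩, h⟩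
      have h3 : d ≤ b := Nat.le_of_dvd (Nat.pos_of_ne_zero hb0) h
      have h4 : b ∣ n := by rw [← hab]; exact Dvd.dvd.mul_right (dvd_pow_self b two_ne_zero) a
      exact h3.trans (Nat.le_of_dvd (Nat.pos_of_ne_zero hn) h4)
  rw [h1]
  have h2 : (∑ d ∈ b.divisors, (ArithmeticFunction.moebius d : ℤ)) = if b = 1 then 1 else 0 := by
    have := congrArg (fun f => f b) ArithmeticFunction.moebius_mul_coe_zeta
    simp only [ArithmeticFunction.coe_mul_zeta_apply, ArithmeticFunction.one_apply] at this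
    exact this
  have h2' : (∑ d ∈ b.divisors, mu d) = if b = 1 then 1 else 0 := by
    have := congrArg (fun z : ℤ => (z : ℝ)) h2
    push_cast at this
    exact this
  rw [h2']
  have h4 : Squarefree n ↔ b = 1 := by
    constructor
    · intro h
      have := h b (by rw [← hab, ← sq]; exact dvd_mul_right _ _)
      exact Nat.isUnit_iff.mp this
    · rintro rfl
      rw [← hab]; simpa using ha
  simp only [h4]

/-- the number of multiples of `k` up to `n` -/
theorem card_mult (n k : ℕ) (hk : 0 < k) : ((Finset.Icc 1 n).filter (fun m => k ∣ m)).card = n / k := by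
  have h2 : (Finset.Icc 1 n).filter (fun m => k ∣ m) =
      (Finset.Icc 1 (n / k)).image (fun m => k * m) := by
    ext m
    simp only [Finset.mem_filter, Finset.mem_Icc, Finset.mem_image]
    constructor
    · rintro ⟨⟨h1, h2⟩, j, rfl⟩
      refine ⟨j, ⟨?_, ?_⟩, rfl⟩
      · rcases Nat.eq_zero_or_pos j with h | h
        · subst h; simp at h1
        · exact h
      · rw [Nat.le_div_iff_mul_le hk]; linarith [mul_comm j k]
    · rintro ⟨j, ⟨h1, h2⟩, rfl⟩
      refine ⟨⟨Nat.mul_pos hk h1, ?_⟩, dvd_mul_right _ _⟩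
      rw [Nat.le_div_iff_mul_le hk] at h2
      linarith [mul_comm j k]
  rw [h2, Finset.card_image_of_injective _ (fun x y hxy => Nat.eq_of_mul_eq_mul_left hk hxy),
    Nat.card_Icc, Nat.add_sub_cancel]

open scoped Classical in
theorem count_eq (n : ℕ) :
    (((Finset.Icc 1 n).filter (fun m => Squarefree m)).card : ℝ) =
      ∑' d : ℕ, mu d * ((n / d ^ 2 : ℕ) : ℝ) := by
  rw [tsum_eq_sum (s := Finset.Icc 1 n)]
  · rw [Finset.card_filter, Nat.cast_sum]
    have h1 : ∀ m ∈ Finset.Icc 1 n, ((if Squarefree m then 1 else 0 : ℕ) : ℝ) =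
        ∑ d ∈ Finset.Icc 1 n, if d ^ 2 ∣ m then mu d else 0 := by
      intro m hm
      rw [Finset.mem_Icc] at hm
      have h2 := indic_eq m (by omega)
      have h3 : ((if Squarefree m then 1 else 0 : ℕ) : ℝ) = if Squarefree m then (1 : ℝ) else 0 := by
        split_ifs <;> simp
      rw [h3]
      refine Eq.trans ?_ (h2.trans ?_)
      · congr
      · apply Finset.sum_subset (Finset.Icc_subset_Icc_right hm.2)
        intro d hd hd'
        rw [if_neg]
        intro h
        apply hd'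
        rw [Finset.mem_Icc] at hd ⊢
        refine ⟨hd.1, ?_⟩
        have : d ∣ m := dvd_trans (dvd_pow_self d two_ne_zero) h
        exact Nat.le_of_dvd (by omega) this
    rw [Finset.sum_congr rfl h1, Finset.sum_comm]
    apply Finset.sum_congr rfl
    intro d hd
    rw [Finset.mem_Icc] at hd
    rw [← Finset.sum_filter, Finset.sum_const, nsmul_eq_mul, mul_comm]
    congr 2
    convert card_mult n (d ^ 2) (pow_pos (by omega) 2) using 2
  · intro d hd
    rcases Nat.eq_zero_or_pos d with h | h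
    · rw [h, mu_zero, zero_mul]
    · have h1 : n < d := by
        by_contra hc
        exact hd (Finset.mem_Icc.2 ⟨h, not_lt.1 hc⟩)
      have h2 : n / d ^ 2 = 0 := Nat.div_eq_of_lt (by nlinarith)
      rw [h2]
      simp

/-- `∑ μ(d)/d² = 6/π²` -/
theorem moebius_hasSum : HasSum (fun d : ℕ => mu d * (1 / (d : ℝ) ^ 2)) (6 / Real.pi ^ 2) := by
  have h2 : (1 : ℝ) < (2 : ℂ).re := by norm_num
  have hs : LSeriesSummable (fun n => ((ArithmeticFunction.moebius n : ℤ) : ℂ)) 2 :=
    ArithmeticFunction.LSeriesSummable_moebius_iff.mpr h2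
  have hL := ArithmeticFunction.LSeries_zeta_mul_Lseries_moebius h2
  rw [ArithmeticFunction.LSeries_zeta_eq_riemannZeta h2, riemannZeta_two] at hL
  have hpi : (Real.pi : ℂ) ≠ 0 := by exact_mod_cast Real.pi_ne_zero
  have hval : LSeries (fun n => ((ArithmeticFunction.moebius n : ℤ) : ℂ)) 2 = 6 / (Real.pi : ℂ) ^ 2 := by
    field_simp
    field_simp at hL
    linear_combination hL
  have hsum := hs.LSeriesHasSum
  rw [hval] at hsum
  have h3 : HasSum (fun d : ℕ => ((mu d * (1 / (d : ℝ) ^ 2) : ℝ) : ℂ)) (((6 / Real.pi ^ 2 : ℝ)) : ℂ) := by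
    have e : (((6 / Real.pi ^ 2 : ℝ)) : ℂ) = 6 / (Real.pi : ℂ) ^ 2 := by push_cast; ring
    rw [e]
    unfold LSeriesHasSum at hsum
    refine hsum.congr_fun ?_
    intro d
    rcases eq_or_ne d 0 with rfl | hd
    · simp [mu]
    · rw [LSeries.term_of_ne_zero hd]
      unfold mu
      push_cast
      rw [show ((d : ℂ) ^ (2 : ℂ)) = (d : ℂ) ^ (2 : ℕ) by norm_cast]
      ring
  exact Complex.hasSum_ofReal.mp h3

theorem t_SQF : Pool.Agent.Y859.SF.S_SQF := by
  classical
  unfold Pool.Agent.Y859.SF.S_SQF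
  rw [← moebius_hasSum.tsum_eq]
  have key : Tendsto (fun n : ℕ => ∑' d : ℕ, mu d * (((n / d ^ 2 : ℕ) : ℝ) / n)) atTop
      (𝓝 (∑' d : ℕ, mu d * (1 / (d : ℝ) ^ 2))) := by
    refine tendsto_tsum_of_dominated_convergence (bound := fun d : ℕ => 1 / (d : ℝ) ^ 2)
      (Real.summable_one_div_nat_pow.mpr one_lt_two) ?_ ?_
    · intro d
      refine Tendsto.const_mul _ ?_
      have h1 : Tendsto (fun n : ℕ => (⌊(1 / (d : ℝ) ^ 2) * (n : ℝ)⌋₊ : ℝ) / (n : ℝ)) atTop
          (𝓝 (1 / (d : ℝ) ^ 2)) :=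
        (tendsto_nat_floor_mul_div_atTop (by positivity)).comp tendsto_natCast_atTop_atTop
      refine h1.congr fun n => ?_
      congr 2
      rw [one_div_mul_eq_div]
      have h2 : ⌊(n : ℝ) / ((d ^ 2 : ℕ) : ℝ)⌋₊ = n / d ^ 2 := Nat.floor_div_eq_div n (d ^ 2)
      rw [← h2]
      push_cast
      rfl
    · filter_upwards [eventually_gt_atTop 0] with n hn d
      have hn' : (0 : ℝ) < n := by exact_mod_cast hn
      rw [norm_mul, Real.norm_eq_abs, Real.norm_eq_abs]
      have h1 : |((n / d ^ 2 : ℕ) : ℝ) / n| ≤ 1 / (d : ℝ) ^ 2 := by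
        rw [abs_of_nonneg (by positivity)]
        have h2 : ((n / d ^ 2 : ℕ) : ℝ) ≤ (n : ℝ) / ((d ^ 2 : ℕ) : ℝ) := Nat.cast_div_le
        rw [div_le_iff₀ hn', one_div_mul_eq_div]
        push_cast at h2
        exact h2
      calc |mu d| * |((n / d ^ 2 : ℕ) : ℝ) / n| ≤ 1 * (1 / (d : ℝ) ^ 2) :=
            mul_le_mul (abs_mu_le d) h1 (abs_nonneg _) zero_le_one
        _ = 1 / (d : ℝ) ^ 2 := one_mul _
  refine key.congr fun n => ?_
  have h3 := count_eq n
  have h4 : ∑' d : ℕ, mu d * (((n / d ^ 2 : ℕ) : ℝ) / n) =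
      (∑' d : ℕ, mu d * ((n / d ^ 2 : ℕ) : ℝ)) / n := by
    rw [← tsum_div_const]
    exact tsum_congr fun d => by ring
  rw [h4, ← h3]

end Pool.Agent.Y293.SF
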